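import Mathlib
import Pool.Agent.Q35.Auto

namespace Pool.Agent.Results.MP_96deef_nt.Full

open PowerSeries Pool.Agent.Q35 Pool.Agent.Q35.Auto

/-- `u m n`: for `c = S 2 m n = 2^a w` with `w` odd this is `v_2(w - 1)`, equal to `⊤` if `w = 1`. -/
noncomputable def u (m n : ℕ) : ℕ∞ :=
  emultiplicity 2 (((S 2 m n / 2 ^ padicValNat 2 (S 2 m n) : ℕ) : ℤ) - 1)

/-- states reached by zero digits only -/
def Zs : List (List ℕ) := [[1], [63, 18, 16, 32]]

/-- the other states -/
def Ns : List (List ℕ) := [[0, 6, 32, 32], [0, 40, 48], [0, 54, 48, 32], [0, 58, 48, 32], [0, 24], [0, 10, 48, 32], [0, 26, 16, 32], [0, 6, 16, 32], [0, 40], [0, 42, 16, 32], [0, 54, 16, 32], [0, 38, 16, 32], [0, 38, 48, 32], [0, 22, 16, 32], [0, 22, 48, 32], [0, 6, 48, 32], [0, 26, 48, 32], [0, 42, 48, 32], [0, 58, 16, 32], [0, 10, 16, 32]]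

/-- the residues that occur -/
def good (v : ℕ) : Bool := [6, 10, 22, 24, 26, 38, 40, 42, 54, 58].contains v

theorem check_true : check 64 2 3 6 good Zs Ns = true := by decide +kernel

theorem residues (n : ℕ) (hn : 1 ≤ n) : good (S 2 3 n % 64) = true := by
  obtain ⟨g, hg, h0⟩ := exists_S (R := ZMod 64) (b := 2) le_rfl 3
  have hA := ser_S (M := 64) (b := 2) le_rfl 3 g hg h0
  have hmem : [1] ∈ Zs := by decide
  obtain ⟨v, hv, hv2⟩ := chkZ_all (M := 64) (b := 2) (by norm_num) hA le_rfl good Zs Ns check_true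
    n hn [1] hmem
  have h1 : evU 64 [1] = 1 := by simp [evU]
  rw [h1, one_mul, ← S_spec (R := ZMod 64) (b := 2) le_rfl 3 g hg h0 n] at hv2
  have h2 := (ZMod.natCast_eq_natCast_iff' _ _ 64).mp hv2
  rw [h2]
  have h3 : v < 64 := by
    by_contra hcon
    simp only [good, List.contains_eq_mem, List.mem_cons, List.not_mem_nil, or_false,
      decide_eq_true_eq] at hv
    omega
  rw [Nat.mod_eq_of_lt h3]
  exact hv

theorem val_of (x e w : ℕ) (h : x = 2 ^ e * w) (hw : w % 2 = 1) : padicValNat 2 x = e := by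
  have : Fact (Nat.Prime 2) := ⟨Nat.prime_two⟩
  rw [h, padicValNat.mul (by positivity) (by omega), padicValNat.prime_pow,
    padicValNat.eq_zero_of_not_dvd (by omega), add_zero]

theorem u_val (m n e w : ℕ) (h : S 2 m n = 2 ^ e * w) (hw : w % 8 = 3 ∨ w % 8 = 5) :
    u m n = 1 ∨ u m n = 2 := by
  have hv := val_of _ e w h (by omega)
  have h2 : S 2 m n / 2 ^ padicValNat 2 (S 2 m n) = w := by
    rw [hv, h, Nat.mul_div_cancel_left _ (by positivity)]
  unfold u
  rw [h2]
  rcases hw with hw | hw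
  · left
    have : emultiplicity 2 ((w : ℤ) - 1) = ((1 : ℕ) : ℕ∞) := by
      rw [emultiplicity_eq_coe]
      constructor <;> norm_num <;> omega
    simpa using this
  · right
    have : emultiplicity 2 ((w : ℤ) - 1) = ((2 : ℕ) : ℕ∞) := by
      rw [emultiplicity_eq_coe]
      constructor <;> norm_num <;> omega
    simpa using this

theorem u_three (n : ℕ) (hn : 1 ≤ n) : u 3 n = 1 ∨ u 3 n = 2 := by
  have h := residues n hn
  simp only [good, List.contains_eq_mem, List.mem_cons, List.not_mem_nil, or_false,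
    decide_eq_true_eq] at h
  by_cases h2 : S 2 3 n % 4 = 2
  · apply u_val 3 n 1 (S 2 3 n / 2) <;> omega
  · apply u_val 3 n 3 (S 2 3 n / 8) <;> omega

/-- For `m = 3` the sequence `(u_m(n))_{n ≥ 1}` takes only the values `1` and `2`; in particular
there is an `m ≥ 1` for which it takes only finitely many values. -/
theorem result : (∀ n : ℕ, 1 ≤ n → u 3 n = 1 ∨ u 3 n = 2) ∧
    ∃ m : ℕ, 1 ≤ m ∧ {x : ℕ∞ | ∃ n : ℕ, 1 ≤ n ∧ u m n = x}.Finite := by
  refine ⟨u_three, 3, by norm_num, ?_⟩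
  apply Set.Finite.subset (Set.toFinite ({1, 2} : Set ℕ∞))
  rintro x ⟨n, hn, rfl⟩
  exact u_three n hn

end Pool.Agent.Results.MP_96deef_nt.Full
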